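import Pool.Agent.Lib.MP_33f9c4_lc.QMain

/-!
# Levin-random strings are complete for EXP under polynomial-time Turing reductions for a universal
machine near to any given one

For every machine `V` which is universal (or optimal) there is a machine `U`, universal (optimal) if
`V` is, whose complexity `Kt U` exceeds `Kt V` by at most `O(log |x|)` (and conversely if `V` is
optimal), such that the set `RKt U` of Levin-random strings belongs to EXP and every language in EXP
is decided in polynomial time with the oracle `RKt U`.

The machine `U` has descriptions by which the oracle `RKt U` reveals, bit by bit, a string of each
length which has no short description of the ordinary kind, and, by means of these, the value of any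
function computable in time `2 ^ (ε n)` from that string. Polynomially many such bits are a correct
advice string for the given language in EXP: the first advice string by which the strings of length
`N` are decided, relative to `RKt U`; that one of polynomial length exists follows from a
pseudorandom generator (a hard bit from the low degree extension, the xor lemma, hybrid argument),
all of whose values are not Levin-random.
-/

namespace Pool.Agent.Results.MP_33f9c4_lc.NearMachineComplete

open Pool.Agent.Lib.MP_33f9c4_lc

theorem result : ∀ V : Machine, Universal V ∨ Optimal V → ∃ U : Machine,
    (Universal V → Universal U) ∧ (Optimal V → Optimal U) ∧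
    (∃ b : ℝ, ∀ x : List Bool, Kt U x ≤ Kt V x + b * Real.logb 2 (x.length + 2)) ∧
    (Optimal V → ∃ b : ℝ, ∀ x : List Bool, Kt V x ≤ Kt U x + b * Real.logb 2 (x.length + 2)) ∧
    InEXP (RKt U) ∧ ∀ L : Set (List Bool), InEXP L → InPRel (RKt U) L := fun V hV => by
  obtain ⟨U, h1, h2, h3, h4, _, h5, h6⟩ := Qt.mainQ V hV
  exact ⟨U, h1, h2, h3, h4, h5, h6⟩

end Pool.Agent.Results.MP_33f9c4_lc.NearMachineComplete
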