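import Pool.Agent.Lib.MP_33f9c4_lc.Final2

/-!
# Levin-random strings are not in P for a universal machine near to any given one

For every machine `V` which is universal (or optimal) there is a machine `U`, universal (optimal) if
`V` is, whose complexity `Kt U` exceeds `Kt V` by at most `O(log |x|)` (and conversely if `V` is
optimal), such that the set `RKt U` of Levin-random strings is not in P; every algorithm for it
needs exponential time at all large lengths.

On descriptions `false :: d` the machine `U` simulates `V` and then waits, so that the time is
multiplied by a power of the length of the output. On descriptions `true :: w` it finds, by exhaustive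
search over all descriptions `false :: d`, a string `x` of prescribed length which has no short
description of that kind; then it runs an algorithm given by `w` on `x`, and outputs `x` if and only
if the algorithm accepts `x`.
-/

namespace Pool.Agent.Results.MP_33f9c4_lc.NearMachineHard

open Pool.Agent.Lib.MP_33f9c4_lc

theorem result : ∀ V : Machine, Universal V ∨ Optimal V → ∃ U : Machine,
    (Universal V → Universal U) ∧ (Optimal V → Optimal U) ∧
    (∃ b : ℝ, ∀ x : List Bool, Kt U x ≤ Kt V x + b * Real.logb 2 (x.length + 2)) ∧
    (Optimal V → ∃ b : ℝ, ∀ x : List Bool, Kt V x ≤ Kt U x + b * Real.logb 2 (x.length + 2)) ∧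
    ¬ InP (RKt U) ∧
    ∃ c, 0 < c ∧ ∀ D : Machine, ∃ n0, ∀ n ≥ n0, ∃ x : List Bool, x.length = n ∧
      ¬ open Classical in Outputs D x [decide (x ∈ RKt U)] (2 ^ (n / c)) :=
  Ef.main2

end Pool.Agent.Results.MP_33f9c4_lc.NearMachineHard
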