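import Pool.Agent.Lib.MP_33f9c4_lc.K.VNot
import Pool.Agent.Lib.MP_33f9c4_lc.K.Univ

/-!
# The set of Levin-random strings is not in P (linear-time universal tree machines)

The machines are while-programs on binary trees (pure LISP machines), for which linear-time
universal machines exist. For every such machine `U`, and more generally for every machine `U` which
is optimal up to `log |x| / 50`, the set `RKt U = {x : |x| ≤ Kt U x}` is not in P; no machine decides it
correctly at the lengths `n = 2 ^ (40 * g)`, `g` large, within `2 ^ (n ^ (1 / 20))` steps.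

The proof diagonalises with programs which read parts of the table of all short programs, encode
what they have read into the strings which they test (these strings must occur in the table as
values), and read each other's messages.
-/

namespace Pool.Agent.Results.MP_33f9c4_lc.TreeMachines

open Pool.Agent.Lib.MP_33f9c4_lc

theorem result : (∃ U : K.TP, K.LinUniv U) ∧
    ∀ U : K.TP, (K.LinUniv U → K.Optimal U) ∧
      (K.Optimal U → ¬ InP (K.RKt U) ∧
        ∀ M : K.TP, ∃ g₀ : ℕ, ∀ g, g₀ ≤ g → ∃ x : List Bool, x.length = 2 ^ (40 * g) ∧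
          ¬ ∃ (y : Pool.Agent.Lib.PolyTime.BT) (r : ℕ), K.Ev M (K.tr x) y r ∧
            r ≤ 2 ^ 2 ^ (2 * g) ∧ (x ∈ K.RKt U ↔ ∃ a b, y = .node a b)) := by
  refine ⟨K.exists_linUniv, fun U => ⟨LK.optimal_of_linUniv, fun hU => ⟨LK.rkt_not_inP hU,
    fun M => ?_⟩⟩⟩
  obtain ⟨g₀, h⟩ := LK.VFin hU M
  refine ⟨g₀, fun g hg => ?_⟩
  obtain ⟨x, hx, hno⟩ := h g hg
  refine ⟨x, hx, fun ⟨y, r, h1, h2, h3⟩ => hno ⟨y, r, ?_, h2, h3⟩⟩
  rwa [← K.tr_eq_enc]

end Pool.Agent.Results.MP_33f9c4_lc.TreeMachines
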