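import Pool.Agent.Lib.MP_33f9c4_lc.T.Fin

/-!
# The set of Levin-random strings is not in P (Turing machines)

The machines are Mathlib's multi-stack Turing machines (two stacks are one tape). `TT.Cls m` is the
class of the machines with at most `m + 4` stacks whose input and output stacks are different. For
every `m` there are machines in this class which are universal for the class with linear-time
simulation (`TT.LinUnivT`). For every such machine `U`, and more generally for every machine `U` of the
class which is optimal for the class up to `log |x| / 50` (`TT.OptimalT`), the set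
`RKt U = {x : |x| ≤ Kt U x}` is not in P; no Turing machine (with any number of stacks) decides it
correctly at the lengths `n = 2 ^ (132 * g)`, `g` large, within `2 ^ (n ^ (1 / 132))` steps.
-/

namespace Pool.Agent.Results.MP_33f9c4_lc.TuringMachines

open Pool.Agent.Lib.MP_33f9c4_lc

theorem result : ∀ m : ℕ, (∃ U : Machine, TT.Cls m U ∧ TT.LinUnivT m U) ∧
    ∀ U : Machine, TT.Cls m U → (TT.LinUnivT m U → TT.OptimalT m U) ∧
      (TT.OptimalT m U → ¬ InP (RKt U) ∧
        ∀ M : Machine, ∃ g₀ : ℕ, ∀ g, g₀ ≤ g → ∃ x : List Bool, x.length = 2 ^ (132 * g) ∧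
          ∀ b : Bool, (b = true ↔ x ∈ RKt U) → ¬ Outputs M x [b] (2 ^ 2 ^ g)) :=
  fun m => ⟨TT.exists_linUnivT m, fun _ hcls => ⟨TT.optimalT_of_linUnivT,
    fun hU => ⟨TT.rkt_not_inP hcls hU, TT.vfin hcls hU⟩⟩⟩

end Pool.Agent.Results.MP_33f9c4_lc.TuringMachines
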